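import Pool.Agent.LibIN19.T3

/-!
MP_225c33_nt, assertion (c): the numbers `a n` are integers unless `2 n + 1` is a power of three.
-/

set_option autoImplicit false

namespace Pool.Agent.Results.MP_225c33_nt.IntegralityC

open Finset

/-- the number `a_n` of the problem -/
noncomputable def a (n : ℕ) : ℚ :=
  1 / ((n : ℚ) * (2 * (n : ℚ) + 1) * ((2 * n).choose n : ℚ)) *
    ∑ j ∈ range n, (-48 : ℚ) ^ (3 * (n - 1 - j)) * (615 * (j : ℚ) + 53) *
      ((2 * j).choose j : ℚ) ^ 2 * ((3 * j).choose j : ℚ)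

theorem a_eq (n : ℕ) : (n : ℚ) * (2 * (n : ℚ) + 1) * ((2 * n).choose n : ℚ) * a n =
    (IN19.U n : ℚ) := by
  rcases Nat.eq_zero_or_pos n with rfl | hn
  · simp [IN19.U]
  have h0 : (n : ℚ) * (2 * (n : ℚ) + 1) * ((2 * n).choose n : ℚ) ≠ 0 := by
    have h1 : ((2 * n).choose n : ℚ) ≠ 0 := by
      exact_mod_cast (Nat.choose_pos (by omega)).ne'
    have h2 : (n : ℚ) ≠ 0 := by positivity
    have h3 : 2 * (n : ℚ) + 1 ≠ 0 := by positivity
    exact mul_ne_zero (mul_ne_zero h2 h3) h1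
  unfold a IN19.U
  rw [← mul_assoc, mul_one_div_cancel h0, one_mul]
  push_cast
  refine sum_congr rfl fun j _ => ?_
  rw [pow_mul, show (-48 : ℚ) ^ 3 = -110592 by norm_num]
  ring

/-- For `n ≥ 2` such that `2 n + 1` is not a power of three `a n` is an integer; if `2 n + 1` is a
power of three then `3 a n` is an integer not divisible by three. -/
theorem result :
    (∀ n : ℕ, 2 ≤ n → (∀ k : ℕ, 2 * n + 1 ≠ 3 ^ k) → ∃ z : ℤ, a n = z) ∧
    (∀ n : ℕ, 2 ≤ n → (∃ k : ℕ, 2 * n + 1 = 3 ^ k) →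
      ∃ z : ℤ, 3 * a n = z ∧ ¬ (3 : ℤ) ∣ z) := by
  have hpos : ∀ n : ℕ, 2 ≤ n → (n : ℚ) * (2 * (n : ℚ) + 1) * ((2 * n).choose n : ℚ) ≠ 0 := by
    intro n hn
    have h1 : ((2 * n).choose n : ℚ) ≠ 0 := by
      exact_mod_cast (Nat.choose_pos (by omega)).ne'
    have h2 : (n : ℚ) ≠ 0 := by positivity
    have h3 : 2 * (n : ℚ) + 1 ≠ 0 := by positivity
    exact mul_ne_zero (mul_ne_zero h2 h3) h1
  constructor
  · intro n hn hk
    obtain ⟨z, hz⟩ := IN19.fin_gen n hn hk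
    refine ⟨z, mul_left_cancel₀ (hpos n hn) ?_⟩
    rw [a_eq, hz]
    push_cast
    ring
  · rintro n hn ⟨k, hk⟩
    obtain ⟨z, hz, hz3⟩ := IN19.fin_exc n k hn hk
    refine ⟨z, mul_left_cancel₀ (hpos n hn) ?_, hz3⟩
    have h1 := a_eq n
    have h2 : (3 : ℚ) * (IN19.U n : ℚ) =
        (n : ℚ) * (2 * (n : ℚ) + 1) * ((2 * n).choose n : ℚ) * z := by exact_mod_cast hz
    linear_combination 3 * h1 + h2

end Pool.Agent.Results.MP_225c33_nt.IntegralityC
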