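import Pool.Agent.LibZQ46.P16

set_option autoImplicit false

namespace Pool.Agent.Results.MP_225c33_nt.PartA

/-- The sum `S_p`, a rational number. -/
def S (p : ℕ) : ℚ :=
  ∑ j ∈ Finset.range p, ((2 * j).choose j : ℚ) ^ 2 * ((3 * j).choose j : ℚ) / (-48) ^ (3 * j)

/-- The rational numbers `r` and `s` are congruent modulo `p ^ 2`: their difference is `p ^ 2` times
a rational number with denominator prime to `p`. -/
def Cong (p : ℕ) (r s : ℚ) : Prop := ∃ c : ℚ, ¬ p ∣ c.den ∧ r - s = (p : ℚ) ^ 2 * c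

/-- Part (a) of Q1, for all primes `p > 3`. -/
theorem result : ∀ p : ℕ, p.Prime → 3 < p →
    (jacobiSym p 3 = 1 → jacobiSym p 41 = 1 → ∀ x y : ℤ, 4 * (p : ℤ) = x ^ 2 + 123 * y ^ 2 →
      Cong p (S p) (x ^ 2 - 2 * p)) ∧
    (jacobiSym p 3 = -1 → jacobiSym p 41 = -1 → ∀ x y : ℤ, 4 * (p : ℤ) = 3 * x ^ 2 + 41 * y ^ 2 →
      Cong p (S p) (2 * p - 3 * x ^ 2)) ∧
    (jacobiSym p 123 = -1 → Cong p (S p) 0) := by
  intro p hp h3
  refine ⟨fun _ _ x y h => ?_, fun _ h41 x y h => ?_, fun h => ?_⟩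
  · exact Pool.Agent.LibZQ46.main_one p hp h3 x y h
  · refine Pool.Agent.LibZQ46.main_three p hp h3 ?_ x y h
    rintro rfl
    revert h41
    norm_num
  · exact Pool.Agent.LibZQ46.main_inert p hp h3 h

end Pool.Agent.Results.MP_225c33_nt.PartA
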